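import Pool.Agent.helper51.VR.Spec

/-!
# Project vr, row EXA
-/

set_option autoImplicit false

namespace Pool.Agent.VR

open Pool.Agent.RB NumberField IsDedekindDomain Module
open scoped nonZeroDivisors Real Classical IsMulCommutative

/-- **EXA** -/
theorem EXA : EXA_stmt := by
  intro A _ κ _ ρ B hB f
  let L : A →ₗ[ℤ] (κ → ℤ) := ρ.toIntLinearMap
  have hfree : Module.Free ℤ (LinearMap.range L) := inferInstance
  have hproj : Module.Projective ℤ (LinearMap.range L) := inferInstance
  obtain ⟨s, hs⟩ := Module.projective_lifting_property L.rangeRestrict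
    (LinearMap.id : LinearMap.range L →ₗ[ℤ] LinearMap.range L) L.surjective_rangeRestrict
  have hmem : ∀ x : A, x - s (L.rangeRestrict x) ∈ B := by
    intro x
    rw [hB, map_sub]
    have h1 : L.rangeRestrict (s (L.rangeRestrict x)) = L.rangeRestrict x :=
      LinearMap.congr_fun hs (L.rangeRestrict x)
    have h2 : L (s (L.rangeRestrict x)) = L x := congrArg Subtype.val h1
    have h3 : ρ (s (L.rangeRestrict x)) = ρ x := h2
    rw [h3, sub_self]
  refine ⟨{ toFun := fun x => f ⟨x - s (L.rangeRestrict x), hmem x⟩, map_zero' := ?_, map_add' := ?_ }, ?_⟩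
  · have : (⟨0 - s (L.rangeRestrict 0), hmem 0⟩ : B) = 0 := by
      apply Subtype.ext
      show (0 : A) - s (L.rangeRestrict 0) = 0
      rw [map_zero, map_zero, sub_zero]
    rw [this, map_zero]
  · intro x y
    rw [← map_add]
    congr 1
    apply Subtype.ext
    show x + y - s (L.rangeRestrict (x + y)) = (x - s (L.rangeRestrict x)) + (y - s (L.rangeRestrict y))
    rw [map_add, map_add]
    abel
  · intro x
    show f ⟨(x : A) - s (L.rangeRestrict x), hmem x⟩ = f x
    congr 1
    apply Subtype.ext
    show (x : A) - s (L.rangeRestrict x) = x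
    have h0 : L.rangeRestrict (x : A) = 0 := by
      apply Subtype.ext
      exact (hB x).1 x.2
    rw [h0, map_zero, sub_zero]

end Pool.Agent.VR
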